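import Pool.Agent.SqA.Main

/-!
MP_7fa120_al: the subgroups of the symmetric groups whose squares generate an abelian group of odd order.
-/

set_option autoImplicit false

namespace Pool.Agent.Results.MP_7fa120_al.OddSquares

open Filter Topology Pool.Agent.SqA

theorem result :
    (∀ a : ℕ, Tendsto (fun n => dens n (2 ^ a)) atTop (𝓝 1)) ∧
    (∀ a : ℕ, Tendsto (fun n => dens (2 * n) (3 * 2 ^ a)) atTop (𝓝 0) ∧
      Tendsto (fun n => dens (2 * n + 1) (3 * 2 ^ a)) atTop (𝓝 1)) ∧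
    ∀ m : ℕ, (∀ a : ℕ, m ≠ 2 ^ a ∧ m ≠ 3 * 2 ^ a) → Tendsto (fun n => dens n m) atTop (𝓝 0) :=
  main

end Pool.Agent.Results.MP_7fa120_al.OddSquares
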